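import Pool.Agent.H852R2.EX.Par
import Pool.Agent.H852R2.EX.S.OPS
import Pool.Agent.H14R2.RC.High

namespace RC852
open RC14 Finset Filter

namespace RTH

section
variable {G : Type*} [Group G] [Fintype G]
variable {V : Type*} [NormedAddCommGroup V] [InnerProductSpace ℂ V] [FiniteDimensional ℂ V]

/-- `Sop_trace` for an invariant subspace -/
theorem STSUB {q : ℕ} (hq : 1 ≤ q) (ρ : G →* (V ≃ₗᵢ[ℂ] V)) (W : Submodule ℂ V) (hW : Inv ρ W)
    (x b : Fin q → G) (m J : ℕ) (P : G → Prop) (β : ℝ) (hβ : 0 ≤ β)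
    (hP : ∀ h, ¬ P h → ‖rchr ρ W hW h‖ ≤ β * Module.finrank ℂ W) :
    RS ρ W hW x b m J ≤
      (β + (Nat.card {w : Fin J → (Fin (2 * m) → Fin q × Bool) × (Fin q × Bool) //
          P (bwd (wrd x) b w)} : ℝ) /
        (Fintype.card ((Fin (2 * m) → Fin q × Bool) × (Fin q × Bool)) : ℝ) ^ J) *
        Module.finrank ℂ W :=
  Sop_trace hq (res ρ W hW) x b m J P β hβ hP
end

/-- character bound for the irreducible subspaces of `HH j1 n` (variant of `MIDHIGH`) -/
theorem MH (n j1 F m : ℕ) (c : ℝ) (hn : 1000 ≤ n)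
    (hb : ∀ j, j1 < j → j ≤ n / 100 → bb j j1 n F ≤ Real.exp (-c)) (hF : 2 * F ≤ n)
    (hm : 100 * m ^ 2 ≤ n) (hm2 : 2 * (1 - 1 / 8400 : ℝ) ^ m ≤ Real.exp (-(2 * c * j1)))
    (W : Submodule ℂ (FA n)) (hW : Irr (RR n) W) (h1 : W ≤ HH j1 n) (g : Alt n)
    (hg : nfix (g : Equiv.Perm (Fin n)) ≤ F) :
    ‖rchr (RR n) W hW.2.1 g‖ ≤ Real.exp (-(c * j1)) * Module.finrank ℂ W := by
  by_cases h2 : W ≤ HH (n / 100) n
  · have h3 := HIGHSUB n hn (RR n) W hW ?_ g (by omega) m hm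
    · have h4 : ‖rchr (RR n) W hW.2.1 g‖ ^ 2 ≤
          (Real.exp (-(c * j1)) * Module.finrank ℂ W) ^ 2 := by
        refine h3.trans ?_
        rw [mul_pow, ← Real.exp_nat_mul]
        have : ((2 : ℕ) : ℝ) * (-(c * (j1 : ℝ))) = -(2 * c * j1) := by push_cast; ring
        rw [this]
        gcongr
      exact le_of_sq_le_sq h4 (by positivity)
    · intro K hK v hv hinv
      refine NOINV n (n / 100) v (h2 hv) K ?_ hinv
      rw [Nat.le_div_iff_mul_le (by norm_num)]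
      omega
  · obtain ⟨j, hj1, hj2, U, hU, hUL, hdim, hchr⟩ := EMB n j1 (n / 100) W hW h1 h2
    rw [hchr g, ← hdim]
    have hj3 : 2 * j + 2 ≤ n := by omega
    refine (CHARB j j1 n F hj3 hj1.le U hU.2.1 hUL g hg).trans ?_
    have h5 : bb j j1 n F ^ j1 ≤ Real.exp (-(c * j1)) := by
      calc bb j j1 n F ^ j1 ≤ (Real.exp (-c)) ^ j1 :=
            pow_le_pow_left₀ (bb_nonneg _ _ _ _) (hb j hj1 hj2) _
        _ = Real.exp (-(c * j1)) := by
            rw [← Real.exp_nat_mul]; congr 1; ring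
    gcongr

lemma exp_small {x : ℝ} (hx : 10 ≤ x) : Real.exp (-x) ≤ 1 / 10000 := by
  have h1 : Real.exp (-x) ≤ Real.exp (-10) := Real.exp_le_exp.mpr (by linarith)
  refine h1.trans ?_
  have e : Real.exp (-10) = (Real.exp (-1)) ^ 10 := by
    rw [← Real.exp_nat_mul]; norm_num
  rw [e]
  have h2 := Real.exp_neg_one_lt_d9
  calc (Real.exp (-1)) ^ 10 ≤ (0.3679 : ℝ) ^ 10 :=
        pow_le_pow_left₀ (Real.exp_pos _).le (by linarith) _
    _ ≤ 1 / 10000 := by norm_num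

lemma exp_small2 {x : ℝ} (hx : 80 ≤ x) : Real.exp (-x) ≤ 1 / 10000000 := by
  have e : Real.exp (-x) = Real.exp (-(x / 2)) * Real.exp (-(x / 2)) := by
    rw [← Real.exp_add]; congr 1; ring
  rw [e]
  have h1 := exp_small (show (10 : ℝ) ≤ x / 2 by linarith)
  have h0 := Real.exp_pos (-(x / 2))
  nlinarith

lemma num_bb (n j : ℕ) (h1000 : 100000 ≤ n) (hj : j ≤ n / 100) :
    bb j (m0 n) n (F0 n) ≤ Real.exp (-(7 / 2)) := by
  have hn : (100000 : ℝ) ≤ n := by exact_mod_cast h1000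
  have hj' : (j : ℝ) ≤ n / 100 := by
    have : j * 100 ≤ n := by omega
    have : (j : ℝ) * 100 ≤ n := by exact_mod_cast this
    linarith
  have hjn : j ≤ n := by omega
  have hcast : ((n - j : ℕ) : ℝ) = n - j := by push_cast [hjn]; ring
  have hnj : (99 / 100 : ℝ) * n ≤ ((n - j : ℕ) : ℝ) := by rw [hcast]; linarith
  have hpos : (0 : ℝ) < 99 / 100 * n := by positivity
  have hpos2 : (0 : ℝ) < ((n - j : ℕ) : ℝ) := by linarith
  have t1 : 2 * (j : ℝ) / ((n - j : ℕ) : ℝ) ≤ 2 / 99 := by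
    rw [div_le_iff₀ hpos2]
    linarith
  have hF : (F0 n : ℝ) ≤ n / 10000 := by
    have h1 : (F0 n : ℝ) < Real.exp (-80) * n + 1 := Nat.ceil_lt_add_one (by positivity)
    have h2 := exp_small2 (le_refl (80 : ℝ))
    have h3 : Real.exp (-80) * n ≤ 1 / 10000000 * n := by gcongr
    linarith
  have t2 : (F0 n : ℝ) / ((n - j : ℕ) : ℝ) ≤ 1 / 1000 := by
    rw [div_le_iff₀ hpos2]
    linarith
  have t3 : (m0 n : ℝ) / Real.sqrt ((n - j : ℕ) : ℝ) ≤ 1 / 1000 := by
    have h1 : (m0 n : ℝ) ≤ Real.exp (-81) * Real.sqrt n := Nat.floor_le (by positivity)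
    have h2 := exp_small2 (show (80 : ℝ) ≤ 81 by norm_num)
    have h4 : Real.sqrt n / 2 ≤ Real.sqrt ((n - j : ℕ) : ℝ) := by
      rw [show Real.sqrt n / 2 = Real.sqrt (n / 4) by
        rw [Real.sqrt_div (by positivity)]
        congr 1
        rw [show (4 : ℝ) = 2 ^ 2 by norm_num, Real.sqrt_sq (by norm_num)]]
      exact Real.sqrt_le_sqrt (by linarith)
    have h5 : 0 < Real.sqrt n := Real.sqrt_pos.mpr (by linarith)
    rw [div_le_iff₀ (by linarith)]
    have h6 : Real.exp (-81) * Real.sqrt n ≤ 1 / 10000000 * Real.sqrt n := by gcongr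
    linarith
  have t4 : (3 / 100 : ℝ) ≤ Real.exp (-(7 / 2)) := by
    have e : Real.exp (-(7 / 2)) = (Real.exp (-(1 / 2))) ^ 7 := by
      rw [← Real.exp_nat_mul]; norm_num
    rw [e]
    have h2 : (0.606 : ℝ) ≤ Real.exp (-(1 / 2)) := by
      have h := Real.exp_neg_one_gt_d9
      have e2 : Real.exp (-1) = Real.exp (-(1 / 2)) ^ 2 := by
        rw [← Real.exp_nat_mul]; norm_num
      rw [e2] at h
      have h0 := Real.exp_pos (-(1 / 2))
      nlinarith
    calc (3 / 100 : ℝ) ≤ (0.606 : ℝ) ^ 7 := by norm_num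
      _ ≤ _ := pow_le_pow_left₀ (by norm_num) h2 _
  unfold bb
  linarith

lemma num_F (n : ℕ) (h1000 : 100000 ≤ n) : 2 * F0 n ≤ n := by
  have hn : (100000 : ℝ) ≤ n := by exact_mod_cast h1000
  have h1 : (F0 n : ℝ) < Real.exp (-80) * n + 1 := Nat.ceil_lt_add_one (by positivity)
  have h2 := exp_small2 (le_refl (80 : ℝ))
  have h3 : Real.exp (-80) * n ≤ 1 / 10000000 * n := by gcongr
  have : 2 * (F0 n : ℝ) ≤ n := by linarith
  exact_mod_cast this

lemma num_m (n : ℕ) : 100 * (Nat.sqrt n / 10) ^ 2 ≤ n := by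
  have h1 : Nat.sqrt n / 10 * 10 ≤ Nat.sqrt n := Nat.div_mul_le_self _ _
  have h2 := Nat.sqrt_le' n
  calc 100 * (Nat.sqrt n / 10) ^ 2 = (Nat.sqrt n / 10 * 10) ^ 2 := by ring
    _ ≤ Nat.sqrt n ^ 2 := Nat.pow_le_pow_left h1 2
    _ ≤ n := h2

lemma num_m2 (n : ℕ) (h : 1000000 ≤ Real.sqrt n) :
    2 * (1 - 1 / 8400 : ℝ) ^ (Nat.sqrt n / 10) ≤ Real.exp (-(2 * (7 / 2) * m0 n)) := by
  set m := Nat.sqrt n / 10 with hm
  have h1 : Real.sqrt n / 10 - 2 ≤ m := by
    have a : Real.sqrt n < Nat.sqrt n + 1 := by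
      rw [Real.sqrt_lt' (by positivity)]
      exact_mod_cast Nat.lt_succ_sqrt' n
    have b : Nat.sqrt n ≤ 10 * m + 9 := by omega
    have b' : (Nat.sqrt n : ℝ) ≤ 10 * m + 9 := by exact_mod_cast b
    linarith
  have h2 : (m0 n : ℝ) ≤ Real.exp (-81) * Real.sqrt n := Nat.floor_le (by positivity)
  have h3 : Real.exp (-81) * Real.sqrt n ≤ 1 / 10000000 * Real.sqrt n := by
    have := exp_small2 (show (80 : ℝ) ≤ 81 by norm_num)
    gcongr
  have h4 : (1 - 1 / 8400 : ℝ) ^ m ≤ Real.exp (-(m / 8400)) := by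
    have h := Real.add_one_le_exp (-(1 / 8400 : ℝ))
    calc (1 - 1 / 8400 : ℝ) ^ m ≤ (Real.exp (-(1 / 8400))) ^ m :=
          pow_le_pow_left₀ (by norm_num) (by linarith) _
      _ = _ := by rw [← Real.exp_nat_mul]; congr 1; ring
  have h5 : (2 : ℝ) ≤ Real.exp 1 := by
    have := Real.add_one_le_exp (1 : ℝ); linarith
  calc 2 * (1 - 1 / 8400 : ℝ) ^ m ≤ Real.exp 1 * Real.exp (-(m / 8400)) := by gcongr
    _ = Real.exp (1 - m / 8400) := by rw [← Real.exp_add]; congr 1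
    _ ≤ _ := by
        apply Real.exp_le_exp.mpr
        linarith

lemma num_pow (n : ℕ) (h1 : 14 ≤ m0 n) (h2 : Real.exp 60 ≤ n) :
    (1 / (n : ℝ)) ^ (m0 n / 8) ≤ Real.exp (-(7 / 2 * m0 n)) := by
  have hn : (0 : ℝ) < n := lt_of_lt_of_le (Real.exp_pos _) h2
  have h3 : 1 / (n : ℝ) ≤ Real.exp (-60) := by
    rw [Real.exp_neg, one_div]
    exact inv_anti₀ (Real.exp_pos _) h2
  calc (1 / (n : ℝ)) ^ (m0 n / 8) ≤ (Real.exp (-60)) ^ (m0 n / 8) :=
        pow_le_pow_left₀ (by positivity) h3 _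
    _ = Real.exp (-(60 * (m0 n / 8 : ℕ))) := by
        rw [← Real.exp_nat_mul]; congr 1; ring
    _ ≤ _ := by
        apply Real.exp_le_exp.mpr
        have : 7 * m0 n ≤ 120 * (m0 n / 8) := by omega
        have : 7 * (m0 n : ℝ) ≤ 120 * ((m0 n / 8 : ℕ) : ℝ) := by exact_mod_cast this
        linarith

lemma num_ev : ∀ᶠ n : ℕ in atTop, 1000000 + 14 * Real.exp 81 ≤ Real.sqrt n := by
  have h : Tendsto (fun n : ℕ => Real.sqrt n) atTop atTop :=
    Real.tendsto_sqrt_atTop.comp tendsto_natCast_atTop_atTop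
  exact h.eventually_ge_atTop _

lemma coe_prod {n : ℕ} (l : List (Alt n)) :
    ((l.prod : Alt n) : Equiv.Perm (Fin n)) = (l.map (fun g : Alt n => (g : Equiv.Perm (Fin n)))).prod := by
  exact map_list_prod (Subgroup.subtype (alternatingGroup (Fin n))) l

lemma coe_bwd {n q J m : ℕ} (x b : Fin q → Alt n)
    (w : Fin J → (Fin (2 * m) → Fin q × Bool) × (Fin q × Bool)) :
    ((bwd (wrd x) b w : Alt n) : Equiv.Perm (Fin n)) = bwd (gx x m) (cb b) w := by
  rw [bwd, bwd, coe_prod, List.map_ofFn]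
  congr 2
  funext t
  simp only [Function.comp, blk, sl, gx, cb]
  split_ifs <;> simp

end RTH

/-- traces on the irreducible subspaces of `HH (m0 n) n` -/
theorem RTHIGH : ∀ᶠ n : ℕ in atTop, ∀ (q m : ℕ) (x b : Fin q → Alt n), 1 ≤ q →
    GoodB (gx x m) (cb b) →
    ∀ (W : Submodule ℂ (FA n)) (hW : Irr (RR n) W), W ≤ HH (m0 n) n →
      RS (RR n) W hW.2.1 x b m (2 * (32 * (m0 n / 8))) ≤
        Real.exp (-(3 * m0 n)) * Module.finrank ℂ W := by
  filter_upwards [RTH.num_ev, eventually_ge_atTop 100000] with n hs hn q m x b hq hG W hW hWH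
  have he81 : (1 : ℝ) ≤ Real.exp 81 := Real.one_le_exp (by norm_num)
  have hs1 : (1000000 : ℝ) ≤ Real.sqrt n := by linarith
  have hm14 : 14 ≤ m0 n := by
    apply Nat.le_floor
    have h1 : 14 * Real.exp 81 ≤ Real.sqrt n := by linarith
    calc ((14 : ℕ) : ℝ) = Real.exp (-81) * (14 * Real.exp 81) := by
          rw [mul_left_comm, ← Real.exp_add]; norm_num
      _ ≤ _ := by gcongr
  have hexp : Real.exp 60 ≤ n := by
    have h1 : Real.sqrt n ≤ n := by
      have := Real.mul_self_sqrt (Nat.cast_nonneg (α := ℝ) n)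
      nlinarith
    have h2 : Real.exp 60 ≤ Real.exp 81 := Real.exp_le_exp.mpr (by norm_num)
    linarith
  have hn1 : (0 : ℝ) < n := by positivity
  set j' := m0 n / 8 with hj'
  have hG' := hG j' (by omega) (by omega)
  have hJ : 64 * j' = 2 * (32 * j') := by ring
  rw [hJ] at hG'
  have hd : (0 : ℝ) ≤ Module.finrank ℂ W := by positivity
  have htr := RTH.STSUB hq (RR n) W hW.2.1 x b m (2 * (32 * j'))
    (fun h => F0 n ≤ nfix (h : Equiv.Perm (Fin n))) (Real.exp (-(7 / 2 * m0 n)))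
    (Real.exp_pos _).le ?_
  · refine le_trans htr ?_
    have hcard : (0 : ℝ) < (Fintype.card ((Fin (2 * m) → Fin q × Bool) × (Fin q × Bool)) : ℝ) := by
      have : Nonempty (Fin q) := ⟨⟨0, by omega⟩⟩
      exact_mod_cast Fintype.card_pos
    have hfr : (Nat.card {w : Fin (2 * (32 * j')) → (Fin (2 * m) → Fin q × Bool) × (Fin q × Bool) //
          F0 n ≤ nfix ((bwd (wrd x) b w : Alt n) : Equiv.Perm (Fin n))} : ℝ) /
        (Fintype.card ((Fin (2 * m) → Fin q × Bool) × (Fin q × Bool)) : ℝ) ^ (2 * (32 * j')) ≤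
        Real.exp (-(7 / 2 * m0 n)) := by
      rw [div_le_iff₀ (by positivity)]
      simp only [RTH.coe_bwd]
      refine hG'.trans ?_
      have := RTH.num_pow n hm14 hexp
      gcongr
    have h2 : Real.exp (-(7 / 2 * m0 n)) + Real.exp (-(7 / 2 * m0 n)) ≤
        Real.exp (-(3 * m0 n)) := by
      have e : Real.exp (-(7 / 2 * m0 n)) = Real.exp (-(1 / 2 * m0 n)) * Real.exp (-(3 * m0 n)) := by
        rw [← Real.exp_add]; congr 1; ring
      have h3 : Real.exp (-(1 / 2 * m0 n)) ≤ 1 / 2 := by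
        have h14 : (14 : ℝ) ≤ m0 n := by exact_mod_cast hm14
        have h4 : Real.exp (-(1 / 2 * m0 n)) ≤ Real.exp (-1) :=
          Real.exp_le_exp.mpr (by linarith)
        have := Real.exp_neg_one_lt_d9
        linarith
      have h0 := Real.exp_pos (-(3 * m0 n : ℝ))
      rw [e]
      nlinarith
    refine mul_le_mul_of_nonneg_right ?_ hd
    linarith
  · intro h hh
    have hh' : nfix (h : Equiv.Perm (Fin n)) ≤ F0 n := by
      have := not_le.mp hh
      exact this.le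
    exact RTH.MH n (m0 n) (F0 n) (Nat.sqrt n / 10) (7 / 2) (by omega)
      (fun j _ hj2 => RTH.num_bb n j hn hj2) (RTH.num_F n hn) (RTH.num_m n)
      (RTH.num_m2 n hs1) W hW hWH h hh'

end RC852
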